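import Pool.Agent.Helper45.U4.St1

/-!
# Project U4, module HF: algebra of the Hermitian form over the field with four elements
-/

set_option autoImplicit false

open Module Classical
open scoped LinearAlgebra.Projectivization

namespace Pool.Agent.Helper89.U4

open Pool.Agent.Helper45.U4 Pool.Agent.Helper53.PB

theorem cube_one {F : Type} [Field F] (h4 : Nat.card F = 4) (c : F) (hc : c ≠ 0) : c ^ 3 = 1 := by
  haveI : Finite F := Nat.finite_of_card_ne_zero (by rw [h4]; norm_num)
  letI : Fintype F := Fintype.ofFinite F
  have hcard : Fintype.card F = 4 := by rw [← Nat.card_eq_fintype_card, h4]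
  have h := FiniteField.pow_card_sub_one_eq_one c hc
  rw [hcard] at h
  exact h

theorem two_zero {F : Type} [Field F] (h4 : Nat.card F = 4) (c : F) : c + c = 0 := by
  haveI : Finite F := Nat.finite_of_card_ne_zero (by rw [h4]; norm_num)
  letI : Fintype F := Fintype.ofFinite F
  have hcard : Fintype.card F = 4 := by rw [← Nat.card_eq_fintype_card, h4]
  have h := FiniteField.cast_card_eq_zero F
  rw [hcard] at h
  have h2 : (2 : F) * 2 = 0 := by
    have : ((4 : ℕ) : F) = 2 * 2 := by norm_num
    rw [← this]
    exact h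
  have h3 : (2 : F) = 0 := by
    rcases mul_eq_zero.mp h2 with h | h <;> exact h
  rw [← two_mul, h3, zero_mul]

theorem om_of {F : Type} [Field F] (h4 : Nat.card F = 4) {a : F} (h0 : a ≠ 0) (h1 : a ≠ 1) :
    Om a := by
  have two := two_zero h4
  have key : ∀ c : F, c ≠ 0 → c ≠ 1 → c ^ 2 = c + 1 := by
    intro c hc0 hc1
    have h3 := cube_one h4 c hc0
    have h5 : (c - 1) * (c ^ 2 + c + 1) = 0 := by
      have : (c - 1) * (c ^ 2 + c + 1) = c ^ 3 - 1 := by ring
      rw [this, h3, sub_self]
    have h6 := (mul_eq_zero.mp h5).resolve_left (sub_ne_zero.mpr hc1)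
    have h7 := two (c + 1)
    linear_combination h6 - h7
  refine ⟨h0, h1, key a h0 h1, ?_, two⟩
  intro c
  by_cases hc0 : c = 0
  · exact Or.inl hc0
  · by_cases hc1 : c = 1
    · exact Or.inr (Or.inl hc1)
    · right; right
      have e1 := key c hc0 hc1
      have e2 := key a h0 h1
      have e3 := two (1 : F)
      have e4 := two a
      have h5 : (c - a) * (c - (a + 1)) = 0 := by
        have : (c - a) * (c - (a + 1)) = c ^ 2 - c - c * (a + a) + a ^ 2 + a := by ring
        rw [this, e1, e2, e4]
        linear_combination e3 + e4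
      rcases mul_eq_zero.mp h5 with h | h
      · exact Or.inl (sub_eq_zero.mp h)
      · exact Or.inr (sub_eq_zero.mp h)

theorem sigma_sq {F : Type} [Field F] (h4 : Nat.card F = 4) (σ : F →+* F)
    {a : F} (ha : σ a ≠ a) : Om a ∧ ∀ c, σ c = c ^ 2 := by
  have h0 : a ≠ 0 := by
    rintro rfl
    exact ha (map_zero σ)
  have h1 : a ≠ 1 := by
    rintro rfl
    exact ha (map_one σ)
  have hom := om_of h4 h0 h1
  have two := two_zero h4
  have hs0 : σ a ≠ 0 := fun h => h0 ((map_eq_zero σ).mp h)
  have hs1 : σ a ≠ 1 := fun h => h1 (σ.injective (by rw [h, map_one]))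
  have hsa : σ a = a + 1 := by
    rcases hom.all (σ a) with h | h | h | h
    · exact absurd h hs0
    · exact absurd h hs1
    · exact absurd h ha
    · exact h
  refine ⟨hom, ?_⟩
  intro c
  rcases hom.all c with h | h | h | h
  · rw [h, map_zero]; ring
  · rw [h, map_one]; ring
  · rw [h, hsa, hom.sq]
  · rw [h, map_add, map_one, hsa]
    have e1 := two a
    have e2 := hom.sq
    have e3 := two (1 : F)
    linear_combination -e2 - e1

theorem hHF : StHF := by
  intro F V _ _ _ φ hk h4
  cases φ with
  | symplectic B alt nd => exact absurd hk (by intro h; cases h)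
  | orthogonal Q nd => exact absurd hk (by intro h; cases h)
  | hermitian σ inv ne B hm nd =>
    obtain ⟨a, ha⟩ := ne
    obtain ⟨hom, hsq⟩ := sigma_sq h4 σ ha
    refine ⟨⟨a, hom⟩, fun c hc => cube_one h4 c hc, ?_, ?_, ?_, fun x => Iff.rfl, ?_, ?_⟩
    · intro x y z
      change B z (x + y) = B z x + B z y
      rw [map_add]
    · intro c x y
      change B y (c • x) = c ^ 2 * B y x
      rw [LinearMap.map_smulₛₗ, hsq, smul_eq_mul]
    · intro x y
      change B x y = (B y x) ^ 2
      rw [hm y x, hsq]
    · intro x
      change B x x = 0 ∨ B x x = 1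
      have h1 := hm x x
      rw [hsq] at h1
      have h2 : B x x * (B x x - 1) = 0 := by linear_combination -h1
      rcases mul_eq_zero.mp h2 with h | h
      · exact Or.inl h
      · exact Or.inr (sub_eq_zero.mp h)
    · intro x hx
      refine nd x ?_
      intro y
      have h1 : B y x = 0 := hx y
      rw [hm y x, h1, map_zero]

end Pool.Agent.Helper89.U4
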